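import Mathlib
import Pool.Agent.Work.MP_dcacaa_nt.Transfer

set_option autoImplicit false

namespace Pool.Agent.Results.MP_dcacaa_nt.Full

open Polynomial Pool.Agent.Work.MP_dcacaa_nt

/-- The `q`-integer `[m] = (1 - q^m) / (1 - q)`, for an integer `m`, in `ℚ(q)`. -/
noncomputable def qInt (m : ℤ) : RatFunc ℚ := (1 - RatFunc.X ^ m) / (1 - RatFunc.X)

/-- The shifted factorial `(a; t)_k = ∏_{j < k} (1 - a t^j)` in `ℚ(q)`. -/
noncomputable def qPoch (a t : RatFunc ℚ) (k : ℕ) : RatFunc ℚ :=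
  ∏ j ∈ Finset.range k, (1 - a * t ^ j)

/-- The sum `S_{d,n}(q)` of the problem, an element of `ℚ(q)` (`q` is `RatFunc.X`). -/
noncomputable def S (d n : ℕ) : RatFunc ℚ :=
  ∑ k ∈ Finset.range n, RatFunc.X ^ (d * (d - 1) * k / 2) * qInt (2 * d * k - 1) *
    (qPoch RatFunc.X⁻¹ (RatFunc.X ^ d) k / qPoch (RatFunc.X ^ d) (RatFunc.X ^ d) k) ^ d

/-- `R ≡ 0 (mod Φ_n(q)^m)`: `R = A/B` with `A, B ∈ ℤ[q]`, `Φ_n^m ∣ A` and `gcd(B, Φ_n) = 1`. -/
def CongrZero (n m : ℕ) (R : RatFunc ℚ) : Prop :=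
  ∃ A B : ℤ[X], cyclotomic n ℤ ^ m ∣ A ∧ IsRelPrime B (cyclotomic n ℤ) ∧
    R = algebraMap ℚ[X] (RatFunc ℚ) (A.map (Int.castRingHom ℚ)) /
      algebraMap ℚ[X] (RatFunc ℚ) (B.map (Int.castRingHom ℚ))

lemma loc_poch {n : ℕ} (hn : 0 < n) {a t : RatFunc ℚ} (ha : Loc n a) (ht : Loc n t) (k : ℕ) :
    Loc n (qPoch a t k) := by
  unfold qPoch
  apply Loc.prod hn
  intro j _
  exact Loc.one_sub hn (ha.mul hn (ht.pow hn j))

lemma loc_S {d n : ℕ} (hn : 1 < n) (hcop : Nat.Coprime d n) : Loc n (S d n) := by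
  have hn0 : 0 < n := by omega
  unfold S
  apply Loc.sum hn0
  intro k hk
  rw [Finset.mem_range] at hk
  have hX : ∀ j : ℕ, Loc n ((RatFunc.X : RatFunc ℚ) ^ j) := by
    intro j
    have := Loc.X_zpow hn0 (j : ℤ)
    rwa [zpow_natCast] at this
  have hinv : ∀ j : ℕ, ¬ n ∣ j → Loc n (1 - (RatFunc.X : RatFunc ℚ) ^ j)⁻¹ := by
    intro j hj
    have h1 : (1 - (RatFunc.X : RatFunc ℚ) ^ j) = toR (1 - X ^ j) := by
      rw [map_sub, map_one, map_pow, toR_X]
    rw [h1]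
    exact Loc.inv hn0 (not_dvd_one_sub hn0 hj)
  refine ((hX _).mul hn0 ?_).mul hn0 (Loc.pow hn0 ?_ d)
  · unfold qInt
    rw [div_eq_mul_inv]
    refine (Loc.one_sub hn0 (Loc.X_zpow hn0 _)).mul hn0 ?_
    have := hinv 1 (by intro h; have := Nat.le_of_dvd one_pos h; omega)
    rwa [pow_one] at this
  · rw [div_eq_mul_inv]
    refine (loc_poch hn0 ?_ (hX d) k).mul hn0 ?_
    · have := Loc.X_zpow hn0 (-1)
      rwa [zpow_neg_one] at this
    · unfold qPoch
      rw [← Finset.prod_inv_distrib]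
      apply Loc.prod hn0
      intro j hj
      rw [Finset.mem_range] at hj
      rw [← pow_succ', ← pow_mul]
      apply hinv
      intro h
      have h4 : n ∣ j + 1 := (Nat.Coprime.dvd_mul_left hcop.symm).mp h
      exact absurd (Nat.le_of_dvd (by omega) h4) (by omega)

lemma main {M : ℕ} (hM : M ≤ 4) {d n e r N m : ℕ} {σ : ℕ} {s : ℕ} (hn1 : 1 < n)
    (he : 2 ≤ e) (hde : d = 2 * e + 1)
    (hdn : σ * n = 1 + d * r)
    (hNr : N + r = n) (hr : 1 ≤ r) (hσ : σ = 1 ∨ σ = 2) (hs0 : 0 < s) (hsd : s < d)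
    (hsσ : s + e * σ = d)
    (hs : 2 * s * n = 1 + d * (2 * m + 1)) (hN : (e - 1) * (r - 1) + m + e = N)
    (hM' : M = 3 ∨ (M = 4 ∧ σ = 2)) :
    CongrZero n M (S d n) := by
  have hn0 : 0 < n := by omega
  have hcop : Nat.Coprime d n := by
    have h1 : Nat.gcd d n ∣ 1 := by
      have a1 : Nat.gcd d n ∣ d * r := (Nat.gcd_dvd_left d n).mul_right r
      have a2 : Nat.gcd d n ∣ σ * n := (Nat.gcd_dvd_right d n).mul_left σ
      rw [hdn] at a2
      exact (Nat.dvd_add_iff_left a1).mpr a2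
    exact Nat.dvd_one.mp h1
  obtain ⟨z, hz⟩ : ∃ z : ℂ, IsPrimitiveRoot z n := ⟨_, Complex.isPrimitiveRoot_exp n (by omega)⟩
  have hz0 : z ≠ 0 := hz.ne_zero (by omega)
  have hS3 : (hh M) ^ 3 * ∑ k ∈ Finset.range (N + 1),
      pr M (qz z hz0 (d * (e * k)) * (1 - qz z hz0 (2 * d * k - 1))) *
      (pr M (PR z hz0 d n k 0)) ^ d * (cc (c6 M) (fun j => pr M (wn z hz0 d j))
        (fun j => pr M (wd z hz0 d j)) k * n ^ 3) = 0 := by
    rcases hM' with h | ⟨h, h'⟩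
    · subst h
      rw [hh_pow, zero_mul]
    · subst h h'
      exact hS3_b hz0 hz hn1 he hde hdn hNr
  have hmain := series_main hM hz0 hz hcop he hde hdn hNr hr hσ hs0 hsd hsσ hs hN hS3
  -- evaluation
  have hginj : Function.Injective ((io).comp (gs z)) := by
    rw [RingHom.coe_comp]
    exact io_inj.comp (gs_inj hz0)
  set Ev : RatFunc ℚ →+* LL := IsFractionRing.lift (A := ℚ[X]) (K := RatFunc ℚ) hginj with hEvdef
  have hEv : ∀ p : ℚ[X], Ev (algebraMap ℚ[X] (RatFunc ℚ) p) = io (gs z p) := by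
    intro p
    rw [hEvdef, IsFractionRing.lift_algebraMap]
    rfl
  have hEvX : Ev RatFunc.X = io (qs z) := by
    rw [← RatFunc.algebraMap_X, hEv, gs_X]
  have hcc1 : PowerSeries.constantCoeff (1 - qs z) ≠ 0 := by
    rw [map_sub, map_one, cc_qs]
    intro h
    have h1 : z ^ 1 = 1 := by rw [pow_one]; linear_combination -h
    have h2 := (hz.pow_eq_one_iff_dvd 1).mp h1
    have := Nat.le_of_dvd one_pos h2
    omega
  refine transfer hn0 hz M Ev hEv (S d n) (loc_S hn1 hcop)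
    ((∑ k ∈ Finset.range n, (qz z hz0 (d * (e * k)) * (1 - qz z hz0 (2 * d * k - 1))) *
      (PR z hz0 d n k 0) ^ d) * (1 - qs z)⁻¹) ?_ (hmain.mul_right _)
  unfold S qInt
  rw [map_sum, map_mul, map_sum, Finset.sum_mul]
  apply Finset.sum_congr rfl
  intro k hk
  rw [Finset.mem_range] at hk
  rw [map_mul, map_mul, map_mul, map_mul, map_pow, map_pow, map_pow, map_div₀, map_sub, map_sub,
    map_one, map_zpow₀, hEvX, io_inv hcc1, map_sub, map_sub, map_one, io_qz, io_qz,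
    io_PR hz0 hz hcop k hk]
  have hpoch : ∀ a t : RatFunc ℚ, Ev (qPoch a t k) = poch (Ev a) (Ev t) k := by
    intro a t
    unfold qPoch poch
    rw [map_prod]
    apply Finset.prod_congr rfl
    intro j _
    rw [map_sub, map_one, map_mul, map_pow]
  have e1 : Ev (qPoch RatFunc.X⁻¹ (RatFunc.X ^ d) k / qPoch (RatFunc.X ^ d) (RatFunc.X ^ d) k)
      = phi ((io (qs z))⁻¹) ((io (qs z)) ^ d) ((io (qs z)) ^ ((n : ℤ) * 0)) k := by
    rw [map_div₀, hpoch, hpoch, map_inv₀, map_pow, hEvX]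
    unfold phi
    rw [mul_zero, zpow_zero, mul_one, div_one]
  rw [e1]
  have e2 : (io (qs z)) ^ ((d : ℤ) * (e * k)) = (io (qs z)) ^ (d * (d - 1) * k / 2) := by
    have h1 : d * (d - 1) * k / 2 = d * (e * k) := by
      have h2 : d - 1 = 2 * e := by omega
      rw [h2]
      have h3 : d * (2 * e) * k = 2 * (d * (e * k)) := by ring
      rw [h3]
      omega
    rw [h1]
    exact_mod_cast rfl
  rw [e2]
  ring

/-- The full question: for every odd `d ≥ 5` and every `n > 1`,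
(a) if `n ≡ 1 (mod d)` then `S_{d,n}(q) ≡ 0 (mod Φ_n(q)^3)`, and
(b) if `2n ≡ 1 (mod d)` then `S_{d,n}(q) ≡ 0 (mod Φ_n(q)^4)`. -/
theorem result : ∀ d n : ℕ, Odd d → 5 ≤ d → 1 < n →
    (n ≡ 1 [MOD d] → CongrZero n 3 (S d n)) ∧ (2 * n ≡ 1 [MOD d] → CongrZero n 4 (S d n)) := by
  intro d n hd hd5 hn1
  obtain ⟨e, he⟩ := hd
  constructor
  · intro h
    have h1 : d ∣ n - 1 := (Nat.modEq_iff_dvd' (by omega)).mp h.symm
    obtain ⟨r, hr⟩ := h1
    have hr1 : 1 ≤ r := by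
      rcases Nat.eq_zero_or_pos r with h0 | h0
      · subst h0; omega
      · exact h0
    obtain ⟨r', rfl⟩ : ∃ r', r = r' + 1 := ⟨r - 1, by omega⟩
    obtain ⟨e', rfl⟩ : ∃ e', e = e' + 1 := ⟨e - 1, by omega⟩
    have hn : n = 1 + d * (r' + 1) := by omega
    have hrn : r' + 1 ≤ n := by
      rw [hn, he]; nlinarith
    refine main (M := 3) (by norm_num) (e := e' + 1) (r := r' + 1) (N := n - (r' + 1))
      (m := (e' + 2) * (r' + 1)) (σ := 1) (s := e' + 2) hn1 (by omega) he (by omega) (by omega)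
      (by omega) (Or.inl rfl) (by omega) (by omega) (by omega) ?_ ?_ (Or.inl rfl)
    · rw [hn, he]; ring
    · have : n = (e' + 1 - 1) * (r' + 1 - 1) + (e' + 2) * (r' + 1) + (e' + 1) + (r' + 1) := by
        rw [hn, he]
        simp only [Nat.add_sub_cancel]
        ring
      omega
  · intro h
    have h1 : d ∣ 2 * n - 1 := (Nat.modEq_iff_dvd' (by omega)).mp h.symm
    obtain ⟨r, hr⟩ := h1
    have hodd : Odd r := by
      by_contra hr2
      rw [Nat.not_odd_iff_even] at hr2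
      obtain ⟨t, ht⟩ := hr2
      have : d * r = 2 * (d * t) := by rw [ht]; ring
      omega
    obtain ⟨m, rfl⟩ := hodd
    have hn : 2 * n = 1 + d * (2 * m + 1) := by omega
    obtain ⟨e', rfl⟩ : ∃ e', e = e' + 1 := ⟨e - 1, by omega⟩
    have hnn : n = 2 * (e' + 1) * m + (e' + 1) + m + 1 := by
      have : 2 * n = 2 * (2 * (e' + 1) * m + (e' + 1) + m + 1) := by
        rw [hn, he]; ring
      omega
    have hrn : 2 * m + 1 ≤ n := by
      rw [hnn]; nlinarith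
    refine main (M := 4) (by norm_num) (e := e' + 1) (r := 2 * m + 1) (N := n - (2 * m + 1))
      (m := m) (σ := 2) (s := 1) hn1 (by omega) he (by omega) (by omega)
      (by omega) (Or.inr rfl) (by omega) (by omega) (by omega) (by omega) ?_
      (Or.inr ⟨rfl, rfl⟩)
    have : n = (e' + 1 - 1) * (2 * m + 1 - 1) + m + (e' + 1) + (2 * m + 1) := by
      rw [hnn]
      simp only [Nat.add_sub_cancel]
      ring
    omega

end Pool.Agent.Results.MP_dcacaa_nt.Full
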